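import Mathlib

/-!
# The palindromes over every generating set containing `A ∪ A * A`

For every group `G` generated by `A` and every `X ⊇ A ∪ A * A` we determine all palindromes over
`X`: they are the elements of `S` and of the cosets `x S`, `x ∈ X`, where `S` is the subgroup
generated by the squares.  For finite `A` this gives `PW(G, A ∪ A * A) ≤ max 1 ⌈|A| / 2⌉` and a
finite generating set `X` over which every element of `G` is a palindrome.
-/

set_option autoImplicit false

universe u

namespace Pool.Agent.Results.MP_738270_al.EveryElementPalindrome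

open scoped Pointwise

section defs

variable {G : Type u} [Group G]

/-- The element of `G` represented by a word in the letters `X ∪ X⁻¹`: the letter `(s, true)`
stands for `s` and the letter `(s, false)` for its inverse. -/
def wordValue (X : Set G) (w : List (X × Bool)) : G :=
  (w.map fun a => cond a.2 (a.1 : G) (a.1 : G)⁻¹).prod

/-- `g` is represented by a palindrome over `X`: a word in `X ∪ X⁻¹` that equals its reverse. -/
def IsPalindrome (X : Set G) (g : G) : Prop :=
  ∃ w : List (X × Bool), w.reverse = w ∧ wordValue X w = g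

/-- The palindromic length: the least number of factors in an expression of `g` as a product of
elements represented by palindromes (infinite if there is none). -/
noncomputable def palLength (X : Set G) (g : G) : ℕ∞ :=
  ⨅ (l : List G) (_ : (∀ p ∈ l, IsPalindrome X p) ∧ l.prod = g), (l.length : ℕ∞)

/-- The palindromic width: the supremum of the palindromic lengths. -/
noncomputable def palWidth (X : Set G) : ℕ∞ := ⨆ g : G, palLength X g

end defs

section proof

variable {G : Type u} [Group G] (X : Set G)

/-- the formal inverse letters, in the same order -/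
def flip (w : List (X × Bool)) : List (X × Bool) := w.map fun a => (a.1, !a.2)

lemma wordValue_nil : wordValue X [] = 1 := rfl

lemma wordValue_append (v w : List (X × Bool)) :
    wordValue X (v ++ w) = wordValue X v * wordValue X w := by
  simp [wordValue]

lemma wordValue_flip (w : List (X × Bool)) :
    wordValue X (flip X w) = (wordValue X w.reverse)⁻¹ := by
  induction w with
  | nil => simp [flip, wordValue]
  | cons a w ih =>
    rw [List.reverse_cons, wordValue_append, mul_inv_rev, ← ih]
    obtain ⟨x, b⟩ := a
    cases b <;> simp [flip, wordValue]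

omit [Group G] in
lemma flip_reverse (w : List (X × Bool)) : flip X w.reverse = (flip X w).reverse := by
  simp [flip]

/-- The values of reversed relators form a subgroup. -/
def relSub : Subgroup G where
  carrier := {g | ∃ w, wordValue X w = 1 ∧ wordValue X w.reverse = g}
  one_mem' := ⟨[], rfl, rfl⟩
  mul_mem' := by
    rintro _ _ ⟨v, hv, rfl⟩ ⟨w, hw, rfl⟩
    refine ⟨w ++ v, by rw [wordValue_append, hv, hw, one_mul], ?_⟩
    rw [List.reverse_append, wordValue_append]
  inv_mem' := by
    rintro _ ⟨w, hw, rfl⟩
    refine ⟨flip X w.reverse, ?_, ?_⟩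
    · rw [wordValue_flip, List.reverse_reverse, hw, inv_one]
    · rw [flip_reverse, List.reverse_reverse, wordValue_flip]

lemma mem_relSub {g : G} :
    g ∈ relSub X ↔ ∃ w, wordValue X w = 1 ∧ wordValue X w.reverse = g := Iff.rfl

lemma isPalindrome_of_mem {g : G} (hg : g ∈ relSub X) : IsPalindrome X g := by
  obtain ⟨w, hw, rfl⟩ := hg
  refine ⟨w ++ w.reverse, by simp, ?_⟩
  rw [wordValue_append, hw, one_mul]

lemma exists_word (hX : Subgroup.closure X = ⊤) (g : G) : ∃ w, wordValue X w = g := by
  have hg : g ∈ Subgroup.closure X := by rw [hX]; trivial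
  induction hg using Subgroup.closure_induction with
  | mem x hx => exact ⟨[(⟨x, hx⟩, true)], by simp [wordValue]⟩
  | one => exact ⟨[], rfl⟩
  | mul x y _ _ ihx ihy =>
    obtain ⟨v, rfl⟩ := ihx
    obtain ⟨w, rfl⟩ := ihy
    exact ⟨v ++ w, wordValue_append X v w⟩
  | inv x _ ih =>
    obtain ⟨v, rfl⟩ := ih
    exact ⟨flip X v.reverse, by rw [wordValue_flip, List.reverse_reverse]⟩

lemma relSub_normal (hX : Subgroup.closure X = ⊤) : (relSub X).Normal := by
  constructor
  rintro _ ⟨w, hw, rfl⟩ g
  obtain ⟨u, rfl⟩ := exists_word X hX g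
  refine ⟨flip X u ++ w ++ u.reverse, ?_, ?_⟩
  · rw [wordValue_append, wordValue_append, hw, wordValue_flip]
    group
  · rw [List.reverse_append, List.reverse_append, List.reverse_reverse, wordValue_append,
      wordValue_append, ← flip_reverse, wordValue_flip, List.reverse_reverse, mul_assoc]

lemma isPalindrome_zpow {s : G} (hs : s ∈ X) (k : ℤ) : IsPalindrome X (s ^ k) := by
  obtain ⟨n, rfl | rfl⟩ := k.eq_nat_or_neg
  · exact ⟨List.replicate n (⟨s, hs⟩, true), by simp, by simp [wordValue]⟩
  · exact ⟨List.replicate n (⟨s, hs⟩, false), by simp, by simp [wordValue]⟩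

/-- the enlarged generating set -/
lemma commutator_le (A X : Set G) (hA : Subgroup.closure A = ⊤) (hAX : A ∪ A * A ⊆ X) :
    commutator G ≤ relSub X := by
  have hX : Subgroup.closure X = ⊤ := by
    rw [eq_top_iff, ← hA]
    exact Subgroup.closure_mono (Set.subset_union_left.trans hAX)
  have hN := relSub_normal X hX
  set N := relSub X with hNdef
  -- generators commute modulo `N`
  have key : ∀ a ∈ A, ∀ b ∈ A, (QuotientGroup.mk a : G ⧸ N) * QuotientGroup.mk b =
      QuotientGroup.mk b * QuotientGroup.mk a := by
    intro a ha b hb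
    rw [← QuotientGroup.mk_mul, ← QuotientGroup.mk_mul, QuotientGroup.eq, hNdef, mem_relSub]
    have haX : a ∈ X := hAX (Or.inl ha)
    have hbX : b ∈ X := hAX (Or.inl hb)
    have hcX : a * b ∈ X := hAX (Or.inr (Set.mul_mem_mul ha hb))
    refine ⟨[(⟨a, haX⟩, true), (⟨b, hbX⟩, true), (⟨a * b, hcX⟩, false)], ?_, ?_⟩
    · simp [wordValue]
    · simp [wordValue, mul_assoc]
  have hS : Subgroup.closure ((QuotientGroup.mk' N) '' A) = ⊤ := by
    rw [← MonoidHom.map_closure, hA, ← MonoidHom.range_eq_map, MonoidHom.range_eq_top]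
    exact QuotientGroup.mk'_surjective N
  have h1 : ((QuotientGroup.mk' N) '' A) ⊆ Subgroup.centralizer ((QuotientGroup.mk' N) '' A) := by
    rintro _ ⟨a, ha, rfl⟩
    rw [SetLike.mem_coe, Subgroup.mem_centralizer_iff]
    rintro _ ⟨b, hb, rfl⟩
    exact key b hb a ha
  have h2 : (⊤ : Subgroup (G ⧸ N)) ≤ Subgroup.centralizer ((QuotientGroup.mk' N) '' A) := by
    rw [← hS]; exact (Subgroup.closure_le _).2 h1
  have h3 : ((QuotientGroup.mk' N) '' A) ⊆ Subgroup.center (G ⧸ N) := by
    intro a ha
    rw [SetLike.mem_coe, Subgroup.mem_center_iff]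
    intro g
    exact ((Subgroup.mem_centralizer_iff.1 (h2 (Subgroup.mem_top g))) a ha).symm
  have h4 : (⊤ : Subgroup (G ⧸ N)) ≤ Subgroup.center (G ⧸ N) := by
    rw [← hS]; exact (Subgroup.closure_le _).2 h3
  rw [commutator_def, Subgroup.commutator_le]
  intro x _ y _
  have h5 := Subgroup.mem_center_iff.1 (h4 (Subgroup.mem_top (QuotientGroup.mk x : G ⧸ N)))
    (QuotientGroup.mk y)
  rw [← QuotientGroup.eq_one_iff]
  rw [commutatorElement_def, QuotientGroup.mk_mul, QuotientGroup.mk_mul, QuotientGroup.mk_mul,
    QuotientGroup.mk_inv, QuotientGroup.mk_inv, ← h5]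
  group

/-- every element is a product of powers of the generators modulo the commutator subgroup -/
lemma exists_powers (A : Finset G) (hA : Subgroup.closure (A : Set G) = ⊤) (g : G) :
    ∃ f : G → ℤ, ((A.toList.map fun a => a ^ f a).prod)⁻¹ * g ∈ commutator G := by
  have key : ∀ h : Abelianization G, ∃ f : G → ℤ, h = ∏ a ∈ A, (Abelianization.of a) ^ f a := by
    intro h
    have hS : Subgroup.closure ((Abelianization.of : G →* Abelianization G) '' A) = ⊤ := by
      rw [← MonoidHom.map_closure, hA, ← MonoidHom.range_eq_map, MonoidHom.range_eq_top]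
      exact QuotientGroup.mk'_surjective _
    have hh : h ∈ Subgroup.closure ((Abelianization.of : G →* Abelianization G) '' A) := by
      rw [hS]; trivial
    classical
    induction hh using Subgroup.closure_induction with
    | mem x hx =>
      obtain ⟨a, ha, rfl⟩ := hx
      refine ⟨fun b => if b = a then 1 else 0, ?_⟩
      rw [Finset.prod_eq_single a]
      · simp
      · intro b _ hb; simp [hb]
      · intro h; exact absurd ha h
    | one => exact ⟨fun _ => 0, by simp⟩
    | mul x y _ _ ihx ihy =>
      obtain ⟨f, rfl⟩ := ihx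
      obtain ⟨f', rfl⟩ := ihy
      exact ⟨fun a => f a + f' a, by rw [← Finset.prod_mul_distrib]; simp [zpow_add]⟩
    | inv x _ ih =>
      obtain ⟨f, rfl⟩ := ih
      exact ⟨fun a => -f a, by simp⟩
  obtain ⟨f, hf⟩ := key (Abelianization.of g)
  refine ⟨f, ?_⟩
  rw [← Abelianization.ker_of, MonoidHom.mem_ker, map_mul, map_inv, hf, map_list_prod,
    List.map_map]
  have : (A.toList.map ((Abelianization.of : G →* Abelianization G) ∘ fun a => a ^ f a)).prod =
      ∏ a ∈ A, (Abelianization.of a) ^ f a := by
    rw [← Finset.prod_map_toList]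
    congr 1
  rw [this, inv_mul_cancel]


/-- The subgroup generated by all squares. -/
def sqSub (G : Type u) [Group G] : Subgroup G := Subgroup.closure (Set.range fun g : G => g ^ 2)

lemma sq_mem (g : G) : g ^ 2 ∈ sqSub G := Subgroup.subset_closure ⟨g, rfl⟩

lemma commutator_le_sqSub : commutator G ≤ sqSub G := by
  rw [commutator_def, Subgroup.commutator_le]
  intro x _ y _
  have : x * y * x⁻¹ * y⁻¹ = x ^ 2 * (x⁻¹ * y) ^ 2 * (y⁻¹) ^ 2 := by
    simp only [pow_two]; group
  rw [commutatorElement_def, this]
  exact mul_mem (mul_mem (sq_mem _) (sq_mem _)) (sq_mem _)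

instance sqSub_normal : (sqSub G).Normal := by
  constructor
  intro n hn g
  have h : g * n * g⁻¹ = (g * n * g⁻¹ * n⁻¹) * n := by group
  rw [h]
  refine mul_mem (commutator_le_sqSub ?_) hn
  rw [commutator_def, ← commutatorElement_def]
  exact Subgroup.commutator_mem_commutator (Subgroup.mem_top _) (Subgroup.mem_top _)

/-- an element of the subgroup generated by the squares is a square modulo the commutator
subgroup -/
lemma exists_sq {g : G} (hg : g ∈ sqSub G) : ∃ u : G, (u ^ 2)⁻¹ * g ∈ commutator G := by
  have h : (sqSub G).map (Abelianization.of : G →* Abelianization G) ≤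
      (powMonoidHom 2 : Abelianization G →* Abelianization G).range := by
    rw [sqSub, MonoidHom.map_closure, Subgroup.closure_le]
    rintro _ ⟨_, ⟨x, rfl⟩, rfl⟩
    exact ⟨Abelianization.of x, by simp⟩
  obtain ⟨h', hh'⟩ := h (Subgroup.mem_map_of_mem _ hg)
  obtain ⟨u, hu⟩ : ∃ u : G, Abelianization.of u = h' := QuotientGroup.mk'_surjective _ h'
  refine ⟨u, ?_⟩
  rw [← Abelianization.ker_of, MonoidHom.mem_ker, map_mul, map_inv, map_pow, ← hh',
    powMonoidHom_apply, hu]
  exact inv_mul_cancel _

/-- a word and its reverse have the same value modulo the commutator subgroup -/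
lemma of_reverse (w : List (X × Bool)) :
    Abelianization.of (wordValue X w.reverse) = Abelianization.of (wordValue X w) := by
  induction w with
  | nil => rfl
  | cons a w ih =>
    have h : wordValue X (a :: w) = wordValue X [a] * wordValue X w :=
      wordValue_append X [a] w
    rw [List.reverse_cons, wordValue_append, map_mul, ih, h, map_mul, mul_comm]

/-- Every element of `x S` is a palindrome over `X`. -/
lemma isPalindrome_of_coset (A X : Set G) (hA : Subgroup.closure A = ⊤) (hAX : A ∪ A * A ⊆ X)
    (m : List (X × Bool)) (hm : m.reverse = m) {g : G}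
    (hg : (wordValue X m)⁻¹ * g ∈ sqSub G) : IsPalindrome X g := by
  have hX : Subgroup.closure X = ⊤ := by
    rw [eq_top_iff, ← hA]
    exact Subgroup.closure_mono (Set.subset_union_left.trans hAX)
  obtain ⟨u, hu⟩ := exists_sq hg
  obtain ⟨t, ht⟩ := exists_word X hX u
  have hk : (u * wordValue X m * wordValue X t.reverse)⁻¹ * g ∈ commutator G := by
    rw [← Abelianization.ker_of, MonoidHom.mem_ker] at hu ⊢
    simp only [map_mul, map_inv, map_pow, of_reverse, ht] at hu ⊢
    rw [← hu, pow_two]
    simp only [mul_inv_rev]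
    ac_rfl
  obtain ⟨s, hs1, hs2⟩ := commutator_le A X hA hAX hk
  refine ⟨(s ++ t) ++ m ++ (s ++ t).reverse, ?_, ?_⟩
  · simp [hm]
  · simp only [wordValue_append, List.reverse_append, hs1, hs2, ht]
    group

/-- The value of a palindrome modulo the subgroup generated by the squares. -/
lemma coset_of_palindrome (w : List (X × Bool)) (hw : w.Palindrome) :
    wordValue X w ∈ sqSub G ∨ ∃ x ∈ X, x⁻¹ * wordValue X w ∈ sqSub G := by
  induction hw with
  | nil => exact Or.inl (one_mem _)
  | singleton a =>
    obtain ⟨⟨x, hx⟩, b⟩ := a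
    refine Or.inr ⟨x, hx, ?_⟩
    cases b
    · have : x⁻¹ * wordValue X [((⟨x, hx⟩ : X), false)] = (x⁻¹) ^ 2 := by
        simp [wordValue, pow_two]
      rw [this]; exact sq_mem _
    · simp [wordValue, one_mem]
  | @cons_concat a l _ ih =>
    have hv : wordValue X (a :: (l ++ [a])) =
        wordValue X [a] * wordValue X l * wordValue X [a] := by
      rw [← List.singleton_append, wordValue_append, wordValue_append, mul_assoc]
    rw [hv]
    set c := wordValue X [a]
    set v := wordValue X l
    have h1 : v⁻¹ * (c * v * c) ∈ sqSub G := by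
      have : v⁻¹ * (c * v * c) = (v⁻¹ * c) ^ 2 * (c⁻¹ * v ^ 2 * c⁻¹⁻¹) := by
        simp only [pow_two]; group
      rw [this]
      exact mul_mem (sq_mem _) (sqSub_normal.conj_mem _ (sq_mem _) _)
    rcases ih with h | ⟨x, hx, h⟩
    · left
      have := mul_mem h h1
      simpa using this
    · right
      refine ⟨x, hx, ?_⟩
      have := mul_mem h h1
      simpa [mul_assoc] using this

/-- the complete description of the palindromes over `X ⊇ A ∪ A * A` -/
lemma isPalindrome_iff (A X : Set G) (hA : Subgroup.closure A = ⊤) (hAX : A ∪ A * A ⊆ X) (g : G) :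
    IsPalindrome X g ↔ g ∈ sqSub G ∨ ∃ x ∈ X, x⁻¹ * g ∈ sqSub G := by
  constructor
  · rintro ⟨w, hw, rfl⟩
    exact coset_of_palindrome X w (List.Palindrome.of_reverse_eq hw)
  · rintro (h | ⟨x, hx, h⟩)
    · exact isPalindrome_of_coset A X hA hAX [] rfl (by simpa [wordValue] using h)
    · exact isPalindrome_of_coset A X hA hAX [(⟨x, hx⟩, true)] rfl (by simpa [wordValue] using h)

/-- every element is a product of distinct generators (taken in a fixed order) modulo the subgroup
generated by the squares -/
lemma exists_sublist (A : Finset G) (hA : Subgroup.closure (A : Set G) = ⊤) (g : G) :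
    ∃ l : List G, l.Sublist A.toList ∧ l.prod⁻¹ * g ∈ sqSub G := by
  obtain ⟨f, hf⟩ := exists_powers A hA g
  have hf' := commutator_le_sqSub hf
  have key : ∀ L : List G, ∃ l : List G, l.Sublist L ∧
      l.prod⁻¹ * (L.map fun a => a ^ f a).prod ∈ sqSub G := by
    intro L
    induction L with
    | nil => exact ⟨[], List.Sublist.refl _, by simp [one_mem]⟩
    | cons a L ih =>
      obtain ⟨l, hl, hm⟩ := ih
      rcases Int.even_or_odd' (f a) with ⟨k, hk | hk⟩
      · refine ⟨l, hl.cons a, ?_⟩
        have : l.prod⁻¹ * ((a :: L).map fun a => a ^ f a).prod =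
            (l.prod⁻¹ * (a ^ k) ^ 2 * l.prod⁻¹⁻¹) * (l.prod⁻¹ * (L.map fun a => a ^ f a).prod) := by
          rw [List.map_cons, List.prod_cons, hk, mul_comm 2 k, zpow_mul, zpow_ofNat]
          group
        rw [this]
        exact mul_mem (sqSub_normal.conj_mem _ (sq_mem _) _) hm
      · refine ⟨a :: l, hl.cons_cons a, ?_⟩
        have : (a :: l).prod⁻¹ * ((a :: L).map fun a => a ^ f a).prod =
            (l.prod⁻¹ * (a ^ k) ^ 2 * l.prod⁻¹⁻¹) * (l.prod⁻¹ * (L.map fun a => a ^ f a).prod) := by
          rw [List.map_cons, List.prod_cons, List.prod_cons, hk, zpow_add, mul_comm 2 k, zpow_mul,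
            zpow_ofNat, zpow_one]
          group
        rw [this]
        exact mul_mem (sqSub_normal.conj_mem _ (sq_mem _) _) hm
  obtain ⟨l, hl, hm⟩ := key A.toList
  refine ⟨l, hl, ?_⟩
  have := mul_mem hm hf'
  simpa [mul_assoc] using this

/-- a product of generators is a product of at most half as many (rounded up) elements of
`A ∪ A * A` -/
lemma exists_pairs (A : Set G) : ∀ (n : ℕ) (l : List G), l.length ≤ n → (∀ a ∈ l, a ∈ A) →
    ∃ l' : List G, (∀ x ∈ l', x ∈ A ∪ A * A) ∧ l'.prod = l.prod ∧ l'.length ≤ (l.length + 1) / 2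
  | _, [], _, _ => ⟨[], by simp, rfl, by simp⟩
  | _, [a], _, h => ⟨[a], by
      intro x hx
      rw [List.mem_singleton] at hx
      exact Or.inl (hx ▸ h a (by simp)), rfl, by simp⟩
  | 0, a :: b :: l, hn, _ => by simp at hn
  | n + 1, a :: b :: l, hn, h => by
    obtain ⟨l', h1, h2, h3⟩ := exists_pairs A n l (by simp at hn; omega)
      (fun x hx => h x (by simp [hx]))
    refine ⟨(a * b) :: l', ?_, ?_, ?_⟩
    · intro x hx
      rw [List.mem_cons] at hx
      rcases hx with rfl | hx
      · exact Or.inr (Set.mul_mem_mul (h a (by simp)) (h b (by simp)))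
      · exact h1 x hx
    · simp [h2, mul_assoc]
    · simp only [List.length_cons]; omega

lemma palLength_one (X : Set G) : palLength X 1 = 0 := by
  refine le_antisymm ?_ bot_le
  exact (iInf₂_le [] ⟨by simp, rfl⟩).trans (by simp)

lemma one_le_palLength (X : Set G) {g : G} (hg : g ≠ 1) : 1 ≤ palLength X g := by
  refine le_iInf₂ fun l hl => ?_
  rcases l with - | ⟨a, l⟩
  · exact absurd hl.2.symm hg
  · simp

end proof

/-- Let `A` be a finite generating set of a group `G`, and let `S` be the subgroup generated by
the squares.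

1. For every `X ⊇ A ∪ A * A` (finite or not) an element `g` is represented by a palindrome over
   `X` if and only if `g ∈ S` or `g ∈ x S` for some `x ∈ X`.
2. `PW(G, A ∪ A * A) ≤ max 1 ⌈|A| / 2⌉`.
3. There is a finite generating set `X ⊇ A` with `|X| ≤ |A| + |A|² + 2 ^ |A|` such that every
   element of `G` is represented by a palindrome over `X`; so `PW(G, X) ≤ 1`, and `PW(G, X) = 1`
   if `G` is not trivial. -/
theorem result (G : Type u) [Group G] (A : Set G) (hfin : A.Finite)
    (hgen : Subgroup.closure A = ⊤) :
    (∀ X : Set G, A ∪ A * A ⊆ X → ∀ g : G, IsPalindrome X g ↔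
      g ∈ Subgroup.closure (Set.range fun h : G => h ^ 2) ∨
        ∃ x ∈ X, x⁻¹ * g ∈ Subgroup.closure (Set.range fun h : G => h ^ 2)) ∧
    palWidth (A ∪ A * A) ≤ max 1 (((A.ncard + 1) / 2 : ℕ) : ℕ∞) ∧
    ∃ X : Set G, X.Finite ∧ A ⊆ X ∧ X.ncard ≤ A.ncard + A.ncard ^ 2 + 2 ^ A.ncard ∧
      Subgroup.closure X = ⊤ ∧ (∀ g : G, IsPalindrome X g) ∧ palWidth X ≤ 1 ∧
      (Nontrivial G → palWidth X = 1) := by
  classical
  refine ⟨fun X hAX g => isPalindrome_iff A X hgen hAX g, ?_, ?_⟩
  · obtain ⟨B, rfl⟩ := hfin.exists_finset_coe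
    refine iSup_le fun g => ?_
    obtain ⟨l, hl, hm⟩ := exists_sublist B hgen g
    have hlen : l.length ≤ B.card := by simpa using hl.length_le
    obtain ⟨l', h1, h2, h3⟩ := exists_pairs (B : Set G) l.length l le_rfl
      (fun a ha => Finset.mem_coe.2 (Finset.mem_toList.1 (hl.subset ha)))
    rw [Set.ncard_coe_finset]
    rw [← h2] at hm
    rcases List.eq_nil_or_concat l' with rfl | ⟨l'', x, hlx⟩
    · refine (iInf₂_le [g] ⟨?_, by simp⟩).trans (by simp)
      intro p hp
      rw [List.mem_singleton] at hp
      rw [hp, isPalindrome_iff (B : Set G) _ hgen subset_rfl]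
      exact Or.inl (by simpa using hm)
    · rw [List.concat_eq_append] at hlx
      subst hlx
      have hp1 : ∀ p ∈ l'' ++ [x * ((l'' ++ [x]).prod⁻¹ * g)],
          IsPalindrome ((B : Set G) ∪ (B : Set G) * (B : Set G)) p := by
        intro p hp
        rw [List.mem_append, List.mem_singleton] at hp
        rw [isPalindrome_iff (B : Set G) _ hgen subset_rfl]
        rcases hp with hp | rfl
        · exact Or.inr ⟨p, h1 p (by simp [hp]), by simp [one_mem]⟩
        · refine Or.inr ⟨x, h1 x (by simp), ?_⟩
          simpa using hm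
      have hp2 : (l'' ++ [x * ((l'' ++ [x]).prod⁻¹ * g)]).prod = g := by
        rw [List.prod_append, List.prod_append, List.prod_singleton, List.prod_singleton]
        group
      have hle : (l'' ++ [x * ((l'' ++ [x]).prod⁻¹ * g)]).length ≤ (B.card + 1) / 2 := by
        simp only [List.length_append, List.length_singleton] at h3 ⊢
        omega
      exact (iInf₂_le _ ⟨hp1, hp2⟩).trans (le_max_of_le_right (by exact_mod_cast hle))
  · obtain ⟨B, rfl⟩ := hfin.exists_finset_coe
    set C : Finset G := (B.toList.sublists.map List.prod).toFinset with hC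
    set X : Finset G := B ∪ (Finset.image₂ (· * ·) B B) ∪ C with hXdef
    have hsub : (B : Set G) ∪ (B : Set G) * (B : Set G) ⊆ (X : Set G) := by
      intro x hx
      rw [hXdef]
      rcases hx with hx | ⟨a, ha, b, hb, rfl⟩
      · simp only [Finset.coe_union]
        exact Or.inl (Or.inl hx)
      · simp only [Finset.coe_union]
        exact Or.inl (Or.inr (Finset.mem_coe.2 (Finset.mem_image₂_of_mem ha hb)))
    have hpal : ∀ g : G, IsPalindrome (X : Set G) g := by
      intro g
      obtain ⟨l, hl, hm⟩ := exists_sublist B hgen g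
      rw [isPalindrome_iff (B : Set G) _ hgen hsub]
      refine Or.inr ⟨l.prod, ?_, hm⟩
      rw [hXdef, Finset.mem_coe, Finset.mem_union]
      right
      rw [hC, List.mem_toFinset, List.mem_map]
      exact ⟨l, List.mem_sublists.2 hl, rfl⟩
    have hle : palWidth (X : Set G) ≤ 1 := by
      refine iSup_le fun g => (iInf₂_le [g] ⟨?_, by simp⟩).trans (by simp)
      intro p hp
      exact hpal p
    refine ⟨(X : Set G), X.finite_toSet, Set.subset_union_left.trans hsub, ?_, ?_, hpal, hle, ?_⟩
    · rw [Set.ncard_coe_finset, Set.ncard_coe_finset]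
      refine (Finset.card_union_le _ _).trans (add_le_add ((Finset.card_union_le _ _).trans
        (add_le_add le_rfl ?_)) ?_)
      · rw [pow_two]; exact Finset.card_image₂_le _ _ _
      · refine (List.toFinset_card_le _).trans ?_
        rw [List.length_map, List.length_sublists, Finset.length_toList]
    · rw [eq_top_iff, ← hgen]
      exact Subgroup.closure_mono (Set.subset_union_left.trans hsub)
    · intro hG
      refine le_antisymm hle ?_
      obtain ⟨g, hg⟩ := exists_ne (1 : G)
      exact (one_le_palLength _ hg).trans (le_iSup (fun g => palLength (X : Set G) g) g)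

end Pool.Agent.Results.MP_738270_al.EveryElementPalindrome
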